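import Pool.Agent.H95.ND.Targets

/-!
# Module LOW: tails of the lower norms for a general field
-/

set_option linter.unusedVariables false

open MeasureTheory ProbabilityTheory
open scoped ENNReal

namespace Pool.Agent.H75.PD

open Pool.Agent.H99.NS Pool.Agent.H22.LPP Pool.Agent.H95.INS Pool.Agent.H76.ND Pool.Agent.H95.ND
open Pool.Agent.H97.NF (PEnv eA eB PN)

/-! ### Shells of pairs of windows -/

/-- The box of radius `n`. -/
noncomputable def box (n : ℕ) : Finset (ℤ × ℤ) := (Finset.Icc (-(n : ℤ)) n) ×ˢ (Finset.Icc (-(n : ℤ)) n)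

theorem mem_box {n : ℕ} {p : ℤ × ℤ} : p ∈ box n ↔ p.1.natAbs ≤ n ∧ p.2.natAbs ≤ n := by
  unfold box
  rw [Finset.mem_product, Finset.mem_Icc, Finset.mem_Icc]
  constructor
  · rintro ⟨⟨h1, h2⟩, h3, h4⟩
    omega
  · rintro ⟨h1, h2⟩
    omega

theorem card_box (n : ℕ) : (box n).card = (2 * n + 1) * (2 * n + 1) := by
  unfold box
  rw [Finset.card_product, Int.card_Icc]
  have : ((n : ℤ) + 1 - -(n : ℤ)).toNat = 2 * n + 1 := by omega
  rw [this]

/-- The pairs with maximum `n`. -/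
noncomputable def shell : ℕ → Finset (ℤ × ℤ)
  | 0 => box 0
  | n + 1 => box (n + 1) \ box n

theorem card_shell (n : ℕ) : (shell n).card ≤ 8 * n + 1 := by
  rcases n with _ | n
  · change (box 0).card ≤ _
    rw [card_box]
  · change (box (n + 1) \ box n).card ≤ _
    have hsub : box n ⊆ box (n + 1) := by
      intro p hp
      rw [mem_box] at hp ⊢
      omega
    rw [Finset.card_sdiff_of_subset hsub, card_box, card_box]
    have : (2 * (n + 1) + 1) * (2 * (n + 1) + 1) = (2 * n + 1) * (2 * n + 1) + (8 * (n + 1)) := by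
      ring
    omega

theorem mem_shell (p : ℤ × ℤ) : p ∈ shell (max p.1.natAbs p.2.natAbs) := by
  rcases h : max p.1.natAbs p.2.natAbs with _ | n
  · change p ∈ box 0
    rw [mem_box]
    omega
  · change p ∈ box (n + 1) \ box n
    rw [Finset.mem_sdiff, mem_box, mem_box]
    omega

theorem shell_max {n : ℕ} {p : ℤ × ℤ} (h : p ∈ shell n) : max p.1.natAbs p.2.natAbs = n := by
  rcases n with _ | n
  · have h' : p ∈ box 0 := h
    rw [mem_box] at h'
    omega
  · have h' : p ∈ box (n + 1) \ box n := h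
    rw [Finset.mem_sdiff, mem_box, mem_box] at h'
    omega

/-! ### Powers -/

theorem cube_root_le {i L : ℕ} (h : L ≤ 32 * 64 ^ i) : (L : ℝ) ^ ((1 : ℝ) / 3) ≤ 4 * 4 ^ i := by
  have h1 : (L : ℝ) ≤ (4 * 4 ^ i : ℝ) ^ 3 := by
    have h2 : (L : ℝ) ≤ 32 * 64 ^ i := by exact_mod_cast h
    have h3 : ((4 : ℝ) * 4 ^ i) ^ 3 = 64 * 64 ^ i := by
      rw [mul_pow, ← pow_mul, mul_comm i 3, pow_mul]; norm_num
    rw [h3]
    have h4 : (0 : ℝ) < 64 ^ i := by positivity
    linarith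
  calc (L : ℝ) ^ ((1 : ℝ) / 3) ≤ ((4 * 4 ^ i : ℝ) ^ 3) ^ ((1 : ℝ) / 3) :=
        Real.rpow_le_rpow (Nat.cast_nonneg _) h1 (by norm_num)
    _ = 4 * 4 ^ i := by
        rw [← Real.rpow_natCast, ← Real.rpow_mul (by positivity)]
        norm_num

theorem le_two_thirds {i L : ℕ} (h : 64 ^ i ≤ L) : (16 : ℝ) ^ i ≤ (L : ℝ) ^ ((2 : ℝ) / 3) := by
  have h1 : ((4 : ℝ) ^ i) ^ 3 ≤ L := by
    have h2 : (64 : ℝ) ^ i ≤ L := by exact_mod_cast h
    rw [← pow_mul, mul_comm i 3, pow_mul]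
    norm_num
    exact h2
  calc (16 : ℝ) ^ i = (((4 : ℝ) ^ i) ^ 3) ^ ((2 : ℝ) / 3) := by
        rw [← Real.rpow_natCast _ 3, ← Real.rpow_mul (by positivity)]
        norm_num
        rw [← pow_mul, mul_comm i 2, pow_mul]
        norm_num
    _ ≤ _ := Real.rpow_le_rpow (by positivity) h1 (by norm_num)

/-- The allowance at a point in the window number `n`. -/
theorem al_ge {K0 D : ℝ} {j i L n : ℕ} (hK : 1 ≤ K0) (hL : L ≤ 32 * 64 ^ i) (hD0 : 0 ≤ D)
    (hD : ((n : ℝ) - 1) * 16 ^ i ≤ D) :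
    str K0 (ds j i) * (1 + n / 16 ^ (max j i - i)) / 8 * (L : ℝ) ^ ((1 : ℝ) / 3) ≤
      al K0 j i D := by
  set d := max j i - i with hd
  have hmax : (16 : ℝ) ^ max j i = 16 ^ i * 16 ^ d := by
    rw [← pow_add]
    congr 1
    omega
  have h16 : (0 : ℝ) < 16 ^ i := by positivity
  have h16d : (1 : ℝ) ≤ 16 ^ d := one_le_pow₀ (by norm_num)
  have h16d0 : (0 : ℝ) < 16 ^ d := by positivity
  have h1 : (1 + (n : ℝ) / 16 ^ d) / 2 ≤ 1 + D / 16 ^ max j i := by
    rw [hmax]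
    have hDd : D / (16 ^ i * 16 ^ d) = D / 16 ^ i / 16 ^ d := by rw [div_div]
    rw [hDd]
    set y := D / 16 ^ i with hy
    have hy0 : 0 ≤ y := by positivity
    have hy1 : (n : ℝ) - 1 ≤ y := by rw [hy, le_div_iff₀ h16]; exact hD
    rcases Nat.eq_zero_or_pos n with h0 | h0
    · subst h0
      have : 0 ≤ y / 16 ^ d := by positivity
      simp
      linarith
    · have hn : (1 : ℝ) ≤ n := by exact_mod_cast h0
      have h2 : (1 + (n : ℝ) / 16 ^ d) / 2 ≤ 1 + ((n : ℝ) - 1) / 16 ^ d := by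
        set z : ℝ := 1 / 16 ^ d with hz
        have hz0 : 0 < z := by positivity
        have hz1 : z ≤ 1 := by rw [hz, div_le_one h16d0]; exact h16d
        have e1 : (n : ℝ) / 16 ^ d = n * z := by rw [hz]; ring
        have e2 : ((n : ℝ) - 1) / 16 ^ d = (n - 1) * z := by rw [hz]; ring
        rw [e1, e2]
        nlinarith [mul_le_mul_of_nonneg_right hn hz0.le]
      have h3 : ((n : ℝ) - 1) / 16 ^ d ≤ y / 16 ^ d := by gcongr
      linarith
  have hLc := cube_root_le hL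
  have hs : 0 ≤ str K0 (ds j i) := by unfold str; positivity
  have hn0 : 0 ≤ 1 + (n : ℝ) / 16 ^ d := by positivity
  calc str K0 (ds j i) * (1 + n / 16 ^ d) / 8 * (L : ℝ) ^ ((1 : ℝ) / 3)
      ≤ str K0 (ds j i) * (1 + n / 16 ^ d) / 8 * (4 * 4 ^ i) := by
        apply mul_le_mul_of_nonneg_left hLc
        positivity
    _ = str K0 (ds j i) * 4 ^ i * ((1 + n / 16 ^ d) / 2) := by ring
    _ ≤ str K0 (ds j i) * 4 ^ i * (1 + D / 16 ^ max j i) := by
        apply mul_le_mul_of_nonneg_left h1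
        positivity
    _ = al K0 j i D := by unfold al str; ring

/-- Summation of the tails over the shells. -/
theorem sum_tails (h : T_WSM) {C c s : ℝ} (hC : 0 < C) (hc : 0 < c) (hs : 0 < s) :
    ∃ C' c' : ℝ, 0 < C' ∧ 0 < c' ∧ ∀ (K0 : ℝ) (d n : ℕ), 1 ≤ K0 → d ≤ n →
      ∑' m : ℕ, ((8 * m + 1 : ℕ) : ℝ≥0∞) * tl C c s (str K0 n * (1 + m / 16 ^ d) / 8) ≤
        tl C' c' s (str K0 n) := by
  have h8 : (0 : ℝ) < (8 : ℝ) ^ s := Real.rpow_pos_of_pos (by norm_num) _
  obtain ⟨C', c', hC', hc', hW⟩ := h (c / 8 ^ s) s (by positivity) hs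
  refine ⟨C * C', c', by positivity, hc', fun K0 d n hK hdn => ?_⟩
  refine ENNReal.tsum_le_of_sum_range_le fun N => ?_
  have hterm : ∀ m : ℕ, ((8 * m + 1 : ℕ) : ℝ≥0∞) * tl C c s (str K0 n * (1 + m / 16 ^ d) / 8) =
      ENNReal.ofReal (C * ((8 * (m : ℝ) + 1) *
        Real.exp (-(c / 8 ^ s * (str K0 n * (1 + m / 16 ^ d)) ^ s)))) := by
    intro m
    unfold tl
    have e1 : ((8 * m + 1 : ℕ) : ℝ≥0∞) = ENNReal.ofReal (8 * (m : ℝ) + 1) := by
      rw [← ENNReal.ofReal_natCast]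
      congr 1
      push_cast
      ring
    rw [e1, ← ENNReal.ofReal_mul (by positivity)]
    congr 1
    have e2 : (str K0 n * (1 + (m : ℝ) / 16 ^ d) / 8) ^ s =
        (str K0 n * (1 + (m : ℝ) / 16 ^ d)) ^ s / 8 ^ s := by
      apply Real.div_rpow
      · have : 0 ≤ str K0 n := by unfold str; positivity
        positivity
      · norm_num
    rw [e2]
    have e3 : c * ((str K0 n * (1 + (m : ℝ) / 16 ^ d)) ^ s / 8 ^ s) =
        c / 8 ^ s * (str K0 n * (1 + (m : ℝ) / 16 ^ d)) ^ s := by ring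
    rw [e3]
    ring
  rw [Finset.sum_congr rfl fun m _ => hterm m, ← ENNReal.ofReal_sum_of_nonneg
    (fun m _ => by positivity), ← Finset.mul_sum]
  unfold tl
  apply ENNReal.ofReal_le_ofReal
  have := hW K0 d n N hK hdn
  calc C * _ ≤ C * (C' * Real.exp (-(c' * str K0 n ^ s))) :=
        mul_le_mul_of_nonneg_left this hC.le
    _ = _ := by ring

theorem pf_LOW (h : T_WSM) (h2 : T_SMF) : T_LOW := by
  intro C c s hC hc hs
  obtain ⟨C', c', hC', hc', hS⟩ := sum_tails h hC hc hs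
  refine ⟨C', c', hC', hc', ?_⟩
  intro q φ K0 V Bd Xc j i L s₀ hK hXc hSml hL1 hL2 hV hCL
  set d := max j i - i with hd
  have hdds : d ≤ ds j i := by unfold ds; omega
  refine le_trans ?_ (hS K0 d (ds j i) hK hdds)
  -- the events
  let Y : ℕ → ℝ := fun m => str K0 (ds j i) * (1 + m / 16 ^ d) / 8
  let Ev : ℤ × ℤ → ℝ → Set Env := fun p y => {ω | ∃ x z : ℤ, Reach (s₀, x) (s₀ + L, z) ∧
      |((x - p.1 * 16 ^ i : ℤ) : ℝ)| ≤ (L : ℝ) ^ ((2 : ℝ) / 3) ∧
      |((z - (p.1 * 16 ^ i + (p.2 - p.1) * 16 ^ i) : ℤ) : ℝ)| ≤ (L : ℝ) ^ ((2 : ℝ) / 3) ∧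
      T (φ ω) (s₀, x) (s₀ + L, z) ≤
        par q (s₀, x) (s₀ + L, z) - y * (L : ℝ) ^ ((1 : ℝ) / 3)}
  let good : ℤ × ℤ → Prop := fun p => |((p.1 * 16 ^ i : ℤ) : ℝ)| ≤ Bd ∧
    |((p.1 * 16 ^ i + (p.2 - p.1) * 16 ^ i : ℤ) : ℝ)| ≤ Bd ∧
    |(((p.2 - p.1) * 16 ^ i : ℤ) : ℝ)| ≤ XL L
  classical
  have hsub : {ω | ∃ x y : ℤ, |(x : ℝ)| ≤ V ∧ |(y : ℝ)| ≤ V ∧ |x - y| ≤ 16 * Xc * 16 ^ i ∧
      Reach (s₀, x) (s₀ + L, y) ∧ T (φ ω) (s₀, x) (s₀ + L, y) <
        par q (s₀, x) (s₀ + L, y) - al K0 j i (max |(x : ℝ)| |(y : ℝ)|)} ⊆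
      ⋃ m : ℕ, ⋃ p ∈ (shell m).filter good, Ev p (Y m) := by
    rintro ω ⟨x, y, hx, hy, hxy, hR, hT⟩
    set w : ℤ := 16 ^ i with hw
    have hw0 : 0 < w := by rw [hw]; positivity
    have hwr : (w : ℝ) = 16 ^ i := by rw [hw]; push_cast; ring
    -- the windows
    obtain ⟨p1, rx, hp1, hrx0, hrx1⟩ : ∃ p r : ℤ, x = p * w + r ∧ 0 ≤ r ∧ r < w :=
      ⟨x / w, x % w, by rw [mul_comm]; exact (Int.mul_ediv_add_emod x w).symm,
        Int.emod_nonneg _ hw0.ne', Int.emod_lt_of_pos _ hw0⟩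
    obtain ⟨p2, ry, hp2, hry0, hry1⟩ : ∃ p r : ℤ, y = p * w + r ∧ 0 ≤ r ∧ r < w :=
      ⟨y / w, y % w, by rw [mul_comm]; exact (Int.mul_ediv_add_emod y w).symm,
        Int.emod_nonneg _ hw0.ne', Int.emod_lt_of_pos _ hw0⟩
    have hwL : (w : ℝ) ≤ (L : ℝ) ^ ((2 : ℝ) / 3) := by rw [hwr]; exact le_two_thirds hL1
    have hrx : |(rx : ℝ)| ≤ w := by
      rw [abs_of_nonneg (by exact_mod_cast hrx0)]
      exact_mod_cast hrx1.le
    have hry : |(ry : ℝ)| ≤ w := by
      rw [abs_of_nonneg (by exact_mod_cast hry0)]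
      exact_mod_cast hry1.le
    have hxr : (x : ℝ) = p1 * w + rx := by rw [hp1]; push_cast; ring
    have hyr : (y : ℝ) = p2 * w + ry := by rw [hp2]; push_cast; ring
    have hwpos : (0 : ℝ) < w := by exact_mod_cast hw0
    have hb1 : |(p1 : ℝ) * w| ≤ |(x : ℝ)| + w := by
      have : (p1 : ℝ) * w = x - rx := by rw [hxr]; ring
      rw [this]
      exact (abs_sub _ _).trans (by linarith)
    have hb2 : |(p2 : ℝ) * w| ≤ |(y : ℝ)| + w := by
      have : (p2 : ℝ) * w = y - ry := by rw [hyr]; ring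
      rw [this]
      exact (abs_sub _ _).trans (by linarith)
    have hgood : good (p1, p2) := by
      refine ⟨?_, ?_, ?_⟩
      · change |((p1 * w : ℤ) : ℝ)| ≤ Bd
        push_cast
        rw [← hwr] at hV
        linarith
      · change |((p1 * w + (p2 - p1) * w : ℤ) : ℝ)| ≤ Bd
        have : ((p1 * w + (p2 - p1) * w : ℤ) : ℝ) = p2 * w := by push_cast; ring
        rw [this]
        rw [← hwr] at hV
        linarith
      · change |(((p2 - p1) * w : ℤ) : ℝ)| ≤ XL L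
        have h5 := (h2 Xc 0 i i hXc le_rfl (by omega) hSml le_rfl).2.2.2
        have h6 : |(p2 - p1) * w| ≤ (16 * Xc + 2) * w := by
          have h7 : (p2 - p1) * w = (y - x) + (rx - ry) := by rw [hp1, hp2]; ring
          rw [h7]
          rw [abs_le] at hxy ⊢
          constructor
          · nlinarith
          · nlinarith
        have h8 : |(((p2 - p1) * w : ℤ) : ℝ)| ≤ (16 * (Xc : ℝ) + 2) * 16 ^ i := by
          rw [← hwr]
          exact_mod_cast h6
        refine h8.trans (h5.trans ?_)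
        unfold XL
        apply Real.rpow_le_rpow (by positivity) _ (by norm_num)
        exact_mod_cast hL1
    set m := max p1.natAbs p2.natAbs with hm
    refine Set.mem_iUnion.2 ⟨m, Set.mem_iUnion₂.2 ⟨(p1, p2), ?_, ?_⟩⟩
    · rw [Finset.mem_filter]
      exact ⟨mem_shell (p1, p2), hgood⟩
    · refine ⟨x, y, hR, ?_, ?_, ?_⟩
      · change |((x - p1 * w : ℤ) : ℝ)| ≤ _
        have : ((x - p1 * w : ℤ) : ℝ) = rx := by push_cast; rw [hxr]; ring
        rw [this]
        exact hrx.trans hwL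
      · change |((y - (p1 * w + (p2 - p1) * w) : ℤ) : ℝ)| ≤ _
        have : ((y - (p1 * w + (p2 - p1) * w) : ℤ) : ℝ) = ry := by push_cast; rw [hyr]; ring
        rw [this]
        exact hry.trans hwL
      · have hD : ((m : ℝ) - 1) * 16 ^ i ≤ max |(x : ℝ)| |(y : ℝ)| := by
          rw [← hwr]
          have h9 : (m : ℝ) * w ≤ max |(x : ℝ)| |(y : ℝ)| + w := by
            rcases le_total p1.natAbs p2.natAbs with h10 | h10
            · have : (m : ℝ) = |(p2 : ℝ)| := by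
                rw [hm, max_eq_right h10]
                exact Nat.cast_natAbs p2 |>.trans (by push_cast; rfl)
              rw [this]
              have h11 : |(p2 : ℝ)| * w = |(p2 : ℝ) * w| := by
                rw [abs_mul, abs_of_pos hwpos]
              rw [h11]
              exact hb2.trans (by linarith [le_max_right |(x : ℝ)| |(y : ℝ)|])
            · have : (m : ℝ) = |(p1 : ℝ)| := by
                rw [hm, max_eq_left h10]
                exact Nat.cast_natAbs p1 |>.trans (by push_cast; rfl)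
              rw [this]
              have h11 : |(p1 : ℝ)| * w = |(p1 : ℝ) * w| := by
                rw [abs_mul, abs_of_pos hwpos]
              rw [h11]
              exact hb1.trans (by linarith [le_max_left |(x : ℝ)| |(y : ℝ)|])
          linarith
        have h12 := al_ge (j := j) hK hL2 (le_max_of_le_left (abs_nonneg (x : ℝ))) hD
        have hYm : Y m = str K0 (ds j i) * (1 + m / 16 ^ (max j i - i)) / 8 := rfl
        refine hT.le.trans ?_
        rw [← hYm] at h12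
        linarith
  refine (measure_mono hsub).trans ?_
  refine (measure_iUnion_le _).trans ?_
  refine ENNReal.tsum_le_tsum fun m => ?_
  refine (measure_biUnion_finset_le _ _).trans ?_
  calc ∑ p ∈ (shell m).filter good, PE q (Ev p (Y m))
      ≤ ∑ _p ∈ (shell m).filter good, tl C c s (Y m) := by
        refine Finset.sum_le_sum fun p hp => ?_
        obtain ⟨-, hg1, hg2, hg3⟩ := Finset.mem_filter.1 hp
        have hY : 0 ≤ Y m := by
          have : 0 ≤ str K0 (ds j i) := by unfold str; positivity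
          change 0 ≤ str K0 (ds j i) * (1 + m / 16 ^ d) / 8
          positivity
        exact hCL (s₀, p.1 * 16 ^ i) ((p.2 - p.1) * 16 ^ i) (Y m) hg1 hg2 hg3 hY
    _ = (((shell m).filter good).card : ℝ≥0∞) * tl C c s (Y m) := by
        rw [Finset.sum_const, nsmul_eq_mul]
    _ ≤ _ := by
        gcongr
        exact (Finset.card_filter_le _ _).trans (card_shell m)

end Pool.Agent.H75.PD
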